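import Pool.Agent.W120.HI.Tup

/-!
# Ordered cycle types: HI-BIN
-/

set_option autoImplicit false

open Finset

namespace Pool.Agent.W120.HI

open Pool.Agent.W871.HI

noncomputable section

/-- triple sum -/
def SSum (F : (k : ℕ) → (Fin k → ℕ) → (k' : ℕ) → (Fin k' → ℕ) → R) (p a b : ℕ) : R :=
  ∑ n ∈ range (p + 1), ∑ m1 ∈ tup a n, ∑ m2 ∈ tup b (p - n),
    ((∏ i, wp (m1 i)) * ∏ i, wm (m2 i)) • F a m1 b m2

theorem SSum_zero (F : (k : ℕ) → (Fin k → ℕ) → (k' : ℕ) → (Fin k' → ℕ) → R) {p a b : ℕ}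
    (h : p < a + b) : SSum F p a b = 0 := by
  unfold SSum
  refine sum_eq_zero fun n hn => ?_
  rw [mem_range] at hn
  rcases Nat.lt_or_ge n a with h1 | h1
  · rw [tup_empty h1, sum_empty]
  · refine sum_eq_zero fun m1 _ => ?_
    rw [tup_empty (k := b) (n := p - n) (by omega), sum_empty]

theorem prod_wm {b : ℕ} (m : Fin b → ℕ) : ∏ i, wm (m i) = (-1) ^ b * ∏ i, wp (m i) := by
  have h : ∀ i : Fin b, wm (m i) = (-1) * wp (m i) := by
    intro i; unfold wm wp; ring
  rw [prod_congr rfl (fun i _ => h i), prod_mul_distrib, prod_const, card_univ, Fintype.card_fin]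

theorem claim1 (F : (k : ℕ) → (Fin k → ℕ) → (k' : ℕ) → (Fin k' → ℕ) → R) (p k : ℕ)
    (U : Finset (Fin k)) :
    ∑ m ∈ tup k p, (∏ i, wp (m i)) •
      ((-1) ^ U.card * F (Uᶜ).card (res Uᶜ m) U.card (res U m)) = SSum F p (Uᶜ).card U.card := by
  set e : Fin U.card ⊕ Fin (Uᶜ).card ≃ Fin k := finSumEquivOfFinset rfl rfl with he
  have hr1 : ∀ m : Fin k → ℕ, ∀ i, res U m i = m (e (Sum.inl i)) := by
    intro m i; rw [he, finSumEquivOfFinset_inl]; rfl
  have hr2 : ∀ m : Fin k → ℕ, ∀ i, res Uᶜ m i = m (e (Sum.inr i)) := by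
    intro m i; rw [he, finSumEquivOfFinset_inr]; rfl
  have hsum : ∀ m : Fin k → ℕ, ∑ i, m i = (∑ i, res U m i) + ∑ i, res Uᶜ m i := by
    intro m
    rw [← e.sum_comp, Fintype.sum_sum_type]
    simp_rw [hr1, hr2]
  have hprod : ∀ m : Fin k → ℕ, ∏ i, wp (m i) = (∏ i, wp (res U m i)) * ∏ i, wp (res Uᶜ m i) := by
    intro m
    rw [← e.prod_comp, Fintype.prod_sum_type]
    simp_rw [hr1, hr2]
  unfold SSum
  have h1 : ∀ n ∈ range (p + 1), ∑ m1 ∈ tup (Uᶜ).card n, ∑ m2 ∈ tup U.card (p - n),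
      ((∏ i, wp (m1 i)) * ∏ i, wm (m2 i)) • F (Uᶜ).card m1 U.card m2 =
      ∑ q ∈ tup (Uᶜ).card n ×ˢ tup U.card (p - n),
      ((∏ i, wp (q.1 i)) * ∏ i, wm (q.2 i)) • F (Uᶜ).card q.1 U.card q.2 := by
    intro n _
    rw [sum_product]
  rw [sum_congr rfl h1, sum_sigma']
  refine sum_nbij' (fun m => (⟨∑ i, res Uᶜ m i, (res Uᶜ m, res U m)⟩ :
      Σ _ : ℕ, (Fin (Uᶜ).card → ℕ) × (Fin U.card → ℕ)))
    (fun q i => Sum.elim q.2.2 q.2.1 (e.symm i)) ?_ ?_ ?_ ?_ ?_
  · intro m hm
    rw [mem_tup] at hm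
    have h2 := hsum m
    rw [hm.2] at h2
    rw [mem_sigma, mem_range, mem_product, mem_tup, mem_tup]
    refine ⟨?_, ⟨fun i => hm.1 _, rfl⟩, fun i => hm.1 _, ?_⟩
    · show ∑ i, res Uᶜ m i < p + 1
      omega
    · show ∑ i, res U m i = p - ∑ i, res Uᶜ m i
      omega
  · rintro ⟨n, m1, m2⟩ hq
    rw [mem_sigma, mem_range, mem_product, mem_tup, mem_tup] at hq
    obtain ⟨h2, ⟨h3, h4⟩, h5, h6⟩ := hq
    simp only at h2 h3 h4 h5 h6
    rw [mem_tup]
    refine ⟨?_, ?_⟩
    · intro i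
      show 1 ≤ Sum.elim m2 m1 (e.symm i)
      rcases e.symm i with j | j
      · exact h5 j
      · exact h3 j
    · rw [← e.sum_comp, Fintype.sum_sum_type]
      simp only [Equiv.symm_apply_apply, Sum.elim_inl, Sum.elim_inr]
      omega
  · intro m _
    funext i
    show Sum.elim (res U m) (res Uᶜ m) (e.symm i) = m i
    conv_rhs => rw [← e.apply_symm_apply i]
    rcases e.symm i with j | j
    · exact hr1 m j
    · exact hr2 m j
  · rintro ⟨n, m1, m2⟩ hq
    rw [mem_sigma, mem_range, mem_product, mem_tup, mem_tup] at hq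
    obtain ⟨h2, ⟨h3, h4⟩, h5, h6⟩ := hq
    simp only at h2 h3 h4 h5 h6
    have e1 : res Uᶜ (fun i => Sum.elim m2 m1 (e.symm i)) = m1 := by
      funext i
      rw [hr2, Equiv.symm_apply_apply, Sum.elim_inr]
    have e2 : res U (fun i => Sum.elim m2 m1 (e.symm i)) = m2 := by
      funext i
      rw [hr1, Equiv.symm_apply_apply, Sum.elim_inl]
    simp only [e1, e2, h4]
  · intro m _
    simp only
    rw [hprod, prod_wm]
    have e3 : ((-1 : R)) ^ U.card * F (Uᶜ).card (res Uᶜ m) U.card (res U m) =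
        ((-1 : ℚ) ^ U.card) • F (Uᶜ).card (res Uᶜ m) U.card (res U m) := by
      rcases neg_one_pow_eq_or R U.card with h | h
      · rcases Nat.even_or_odd U.card with h' | h'
        · rw [h'.neg_one_pow, h'.neg_one_pow, one_mul, one_smul]
        · rw [h'.neg_one_pow, h'.neg_one_pow, neg_one_mul, neg_one_smul]
      · rcases Nat.even_or_odd U.card with h' | h'
        · rw [h'.neg_one_pow, h'.neg_one_pow, one_mul, one_smul]
        · rw [h'.neg_one_pow, h'.neg_one_pow, neg_one_mul, neg_one_smul]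
    rw [e3, smul_smul]
    congr 1
    ring

theorem bin : S_bin := by
  intro F p
  have hL : T wp p (fun k m => ∑ U : Finset (Fin k),
      (-1) ^ U.card * F (Uᶜ).card (res Uᶜ m) U.card (res U m)) =
      ∑ k ∈ range (p + 1), ∑ b ∈ range (k + 1),
        (((k - b).factorial : ℚ)⁻¹ * ((b.factorial : ℚ)⁻¹)) • SSum F p (k - b) b := by
    rw [T_eq]
    refine sum_congr rfl fun k _ => ?_
    have h1 : tt wp k p (fun m => ∑ U : Finset (Fin k),
        (-1) ^ U.card * F (Uᶜ).card (res Uᶜ m) U.card (res U m)) =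
        ∑ U : Finset (Fin k), SSum F p (k - U.card) U.card := by
      unfold tt
      simp_rw [smul_sum]
      rw [sum_comm]
      refine sum_congr rfl fun U _ => ?_
      rw [claim1, card_compl, Fintype.card_fin]
    have h2 := sum_powerset_apply_card (fun b => SSum F p (k - b) b) (x := (univ : Finset (Fin k)))
    rw [powerset_univ, card_univ, Fintype.card_fin] at h2
    rw [h1, h2, smul_sum]
    refine sum_congr rfl fun b hb => ?_
    rw [mem_range] at hb
    rw [← Nat.cast_smul_eq_nsmul ℚ, smul_smul]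
    congr 1
    have h3 := Nat.choose_mul_factorial_mul_factorial (n := k) (k := b) (by omega)
    have h4 : ((k.choose b : ℕ) : ℚ) * b.factorial * (k - b).factorial = k.factorial := by
      exact_mod_cast h3
    have h5 : (k.factorial : ℚ) ≠ 0 := by positivity
    have h6 : (b.factorial : ℚ) ≠ 0 := by positivity
    have h7 : ((k - b).factorial : ℚ) ≠ 0 := by positivity
    field_simp
    linarith
  have hR : ∑ n ∈ range (p + 1), T wp n (fun k m => T wm (p - n) (F k m)) =
      ∑ a ∈ range (p + 1), ∑ b ∈ range (p + 1),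
        ((a.factorial : ℚ)⁻¹ * ((b.factorial : ℚ)⁻¹)) • SSum F p a b := by
    have h1 : ∀ n ∈ range (p + 1), T wp n (fun k m => T wm (p - n) (F k m)) =
        ∑ a ∈ range (p + 1), ∑ b ∈ range (p + 1), ((a.factorial : ℚ)⁻¹ * ((b.factorial : ℚ)⁻¹)) •
          ∑ m1 ∈ tup a n, ∑ m2 ∈ tup b (p - n),
            ((∏ i, wp (m1 i)) * ∏ i, wm (m2 i)) • F a m1 b m2 := by
      intro n hn
      rw [mem_range] at hn
      rw [T_eq' wp n (p + 1) (by omega)]
      refine sum_congr rfl fun a _ => ?_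
      have h2 : tt wp a n (fun m => T wm (p - n) (F a m)) = ∑ b ∈ range (p + 1),
          ((b.factorial : ℚ)⁻¹) • ∑ m1 ∈ tup a n, ∑ m2 ∈ tup b (p - n),
            ((∏ i, wp (m1 i)) * ∏ i, wm (m2 i)) • F a m1 b m2 := by
        unfold tt
        simp_rw [T_eq' wm (p - n) (p + 1) (by omega), smul_sum]
        rw [sum_comm]
        refine sum_congr rfl fun b _ => ?_
        refine sum_congr rfl fun m1 _ => ?_
        unfold tt
        rw [smul_sum, smul_sum]
        refine sum_congr rfl fun m2 _ => ?_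
        rw [smul_smul, smul_smul, smul_smul]
        congr 1
        ring
      rw [h2, smul_sum]
      refine sum_congr rfl fun b _ => ?_
      rw [smul_smul]
    rw [sum_congr rfl h1, sum_comm]
    refine sum_congr rfl fun a _ => ?_
    rw [sum_comm]
    refine sum_congr rfl fun b _ => ?_
    unfold SSum
    rw [← smul_sum]
  rw [hL, hR, sum_sigma', ← sum_product']
  have h8 : ∑ q ∈ range (p + 1) ×ˢ range (p + 1), ((q.1.factorial : ℚ)⁻¹ * ((q.2.factorial : ℚ)⁻¹)) •
      SSum F p q.1 q.2 = ∑ q ∈ (range (p + 1) ×ˢ range (p + 1)).filter (fun q => q.1 + q.2 < p + 1),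
      ((q.1.factorial : ℚ)⁻¹ * ((q.2.factorial : ℚ)⁻¹)) • SSum F p q.1 q.2 := by
    symm
    refine sum_subset (filter_subset _ _) ?_
    intro q hq hq'
    rw [mem_filter, not_and] at hq'
    rw [SSum_zero F (by have := hq' hq; omega), smul_zero]
  rw [h8]
  refine sum_nbij' (fun s : (Σ _ : ℕ, ℕ) => ((s.1 - s.2, s.2) : ℕ × ℕ))
    (fun q => (⟨q.1 + q.2, q.2⟩ : Σ _ : ℕ, ℕ)) ?_ ?_ ?_ ?_ ?_
  · rintro ⟨k, b⟩ h
    rw [mem_sigma, mem_range, mem_range] at h
    simp only at h
    rw [mem_filter, mem_product, mem_range, mem_range]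
    simp only
    omega
  · rintro ⟨a, b⟩ h
    rw [mem_filter, mem_product, mem_range, mem_range] at h
    simp only at h
    rw [mem_sigma, mem_range, mem_range]
    simp only
    omega
  · rintro ⟨k, b⟩ h
    rw [mem_sigma, mem_range, mem_range] at h
    simp only at h
    simp only
    rw [show k - b + b = k by omega]
  · rintro ⟨a, b⟩ h
    simp
  · rintro ⟨k, b⟩ h
    rfl

end

end Pool.Agent.W120.HI
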