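import Pool.Agent.W871.HI.Stm3

/-!
# HI-BURN
-/

set_option autoImplicit false

open Finset

namespace Pool.Agent.W120.HI

open Pool.Agent.W871.HI

noncomputable section

theorem noTwo_of_iso {V : Type*} {G H : SimpleGraph V} (e : G ≃g H) (h : NoTwo G) : NoTwo H := by
  intro v
  have h1 : H.neighborSet v = e '' G.neighborSet (e.symm v) := by
    ext w
    simp only [SimpleGraph.mem_neighborSet, Set.mem_image]
    constructor
    · intro hw
      refine ⟨e.symm w, ?_, by simp⟩
      exact e.symm.map_adj_iff.2 hw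
    · rintro ⟨u, hu, rfl⟩
      have := e.map_adj_iff.2 hu
      simpa using this
  rw [h1, Set.ncard_image_of_injective _ e.injective]
  exact h _

theorem edge_of_iso {V : Type*} {G H : SimpleGraph V} (e : G ≃g H) :
    G.edgeSet.ncard = H.edgeSet.ncard := Nat.card_congr e.mapEdgeSet

/-- relabelling -/
def act {p : ℕ} (σ : Equiv.Perm (Fin p)) (G : SimpleGraph (Fin p)) : SimpleGraph (Fin p) :=
  G.comap (σ⁻¹ : Equiv.Perm (Fin p))

theorem act_adj {p : ℕ} (σ : Equiv.Perm (Fin p)) (G : SimpleGraph (Fin p)) (a b : Fin p) :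
    (act σ G).Adj a b ↔ G.Adj (σ⁻¹ a) (σ⁻¹ b) := Iff.rfl

/-- the isomorphism -/
def actIso {p : ℕ} (σ : Equiv.Perm (Fin p)) (G : SimpleGraph (Fin p)) : G ≃g act σ G where
  toEquiv := σ
  map_rel_iff' := by
    intro a b
    rw [act_adj]
    simp

/-- the set -/
abbrev XX (p q : ℕ) : Type := {G : SimpleGraph (Fin p) // NoTwo G ∧ G.edgeSet.ncard = q}

instance actX (p q : ℕ) : MulAction (Equiv.Perm (Fin p)) (XX p q) where
  smul σ G := ⟨act σ G.1, noTwo_of_iso (actIso σ G.1) G.2.1,
    (edge_of_iso (actIso σ G.1)).symm.trans G.2.2⟩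
  one_smul G := by
    apply Subtype.ext
    ext a b
    show (act 1 G.1).Adj a b ↔ _
    rw [act_adj]
    simp
  mul_smul σ τ G := by
    apply Subtype.ext
    ext a b
    show (act (σ * τ) G.1).Adj a b ↔ (act σ (act τ G.1)).Adj a b
    rw [act_adj, act_adj, act_adj, mul_inv_rev]
    simp

theorem smul_val {p q : ℕ} (σ : Equiv.Perm (Fin p)) (G : XX p q) : (σ • G).1 = act σ G.1 := rfl

theorem setoid_eq (p q : ℕ) : isoSetoid p q = MulAction.orbitRel (Equiv.Perm (Fin p)) (XX p q) := by
  ext G H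
  rw [MulAction.orbitRel_apply, MulAction.mem_orbit_iff]
  constructor
  · rintro ⟨e⟩
    refine ⟨e.symm.toEquiv, ?_⟩
    apply Subtype.ext
    rw [smul_val]
    ext a b
    rw [act_adj]
    exact e.map_adj_iff
  · rintro ⟨σ, hσ⟩
    have h1 : act σ H.1 = G.1 := by rw [← smul_val, hσ]
    have e := actIso σ H.1
    rw [h1] at e
    exact ⟨e.symm⟩

theorem fixed_iff {p : ℕ} (σ : Equiv.Perm (Fin p)) (G : SimpleGraph (Fin p)) :
    act σ G = G ↔ Inv σ G := by
  constructor
  · intro h a b
    conv_lhs => rw [← h]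
    rw [act_adj]
    simp
  · intro h
    ext a b
    rw [act_adj]
    have := h (σ⁻¹ a) (σ⁻¹ b)
    rw [← this]
    simp

open Classical in
theorem card_fix (p q : ℕ) (σ : Equiv.Perm (Fin p)) :
    Fintype.card (MulAction.fixedBy (XX p q) σ) =
      ((univ : Finset (SimpleGraph (Fin p))).filter
        (fun G => (Inv σ G ∧ NoTwo G) ∧ G.edgeSet.ncard = q)).card := by
  rw [← Fintype.card_coe]
  refine Fintype.card_congr
    { toFun := fun G => ⟨G.1.1, ?_⟩
      invFun := fun G => ⟨⟨G.1, ?_⟩, ?_⟩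
      left_inv := fun G => rfl
      right_inv := fun G => rfl }
  · rw [mem_filter]
    have h1 : σ • G.1 = G.1 := G.2
    have h2 : act σ G.1.1 = G.1.1 := congrArg Subtype.val h1
    exact ⟨mem_univ _, ⟨(fixed_iff σ _).1 h2, G.1.2.1⟩, G.1.2.2⟩
  · have := (mem_filter.1 G.2).2
    exact ⟨this.1.2, this.2⟩
  · have := (mem_filter.1 G.2).2
    rw [MulAction.mem_fixedBy]
    apply Subtype.ext
    exact (fixed_iff σ _).2 this.1.1

theorem edge_le {p : ℕ} (G : SimpleGraph (Fin p)) : G.edgeSet.ncard ≤ p.choose 2 := by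
  classical
  have h := G.card_edgeFinset_le_card_choose_two
  rw [Fintype.card_fin] at h
  rw [Set.ncard_eq_toFinset_card']
  exact h

open Classical in
theorem W_eq (p : ℕ) (σ : Equiv.Perm (Fin p)) :
    W (Fin p) σ = ∑ q ∈ range (p.choose 2 + 1),
      (((univ : Finset (SimpleGraph (Fin p))).filter
        (fun G => (Inv σ G ∧ NoTwo G) ∧ G.edgeSet.ncard = q)).card : R) * x ^ q := by
  unfold W
  have hfin : {G : SimpleGraph (Fin p) | Inv σ G ∧ NoTwo G}.Finite := Set.toFinite _
  rw [finsum_mem_eq_finite_toFinset_sum _ hfin]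
  rw [← sum_fiberwise_of_maps_to (t := range (p.choose 2 + 1)) (g := fun G => G.edgeSet.ncard)]
  · refine sum_congr rfl fun q _ => ?_
    have h1 : ∑ G ∈ hfin.toFinset with G.edgeSet.ncard = q, x ^ G.edgeSet.ncard =
        ∑ G ∈ hfin.toFinset with G.edgeSet.ncard = q, x ^ q := by
      refine sum_congr rfl fun G hG => ?_
      rw [(mem_filter.1 hG).2]
    rw [h1, sum_const, nsmul_eq_mul]
    congr 2
    apply congrArg
    ext G
    simp
  · intro G _
    rw [mem_range]
    have := edge_le G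
    omega

theorem burn : S_burn := by
  classical
  intro p
  have hp : (p.factorial : ℚ) ≠ 0 := by positivity
  have hh : ∀ q : ℕ, (h p q : R) = ((p.factorial : ℚ)⁻¹) • ∑ σ : Equiv.Perm (Fin p),
      (((univ : Finset (SimpleGraph (Fin p))).filter
        (fun G => (Inv σ G ∧ NoTwo G) ∧ G.edgeSet.ncard = q)).card : R) := by
    intro q
    have h1 := MulAction.sum_card_fixedBy_eq_card_orbits_mul_card_group
      (Equiv.Perm (Fin p)) (XX p q)
    have h2 : h p q = Fintype.card (Quotient (MulAction.orbitRel (Equiv.Perm (Fin p)) (XX p q))) := by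
      unfold h
      rw [setoid_eq, Nat.card_eq_fintype_card]
    have h3 : ∑ σ : Equiv.Perm (Fin p), ((univ : Finset (SimpleGraph (Fin p))).filter
        (fun G => (Inv σ G ∧ NoTwo G) ∧ G.edgeSet.ncard = q)).card = h p q * p.factorial := by
      rw [h2]
      have h4 : Fintype.card (Equiv.Perm (Fin p)) = p.factorial := by
        rw [Fintype.card_perm, Fintype.card_fin]
      rw [← h4, ← h1]
      refine sum_congr rfl fun σ _ => ?_
      rw [← card_fix]
    have h5 : (∑ σ : Equiv.Perm (Fin p), (((univ : Finset (SimpleGraph (Fin p))).filter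
        (fun G => (Inv σ G ∧ NoTwo G) ∧ G.edgeSet.ncard = q)).card : R)) =
        (p.factorial : ℚ) • (h p q : R) := by
      rw [← Nat.cast_sum, h3, Nat.cast_smul_eq_nsmul, nsmul_eq_mul]
      push_cast
      ring
    rw [h5, smul_smul, inv_mul_cancel₀ hp, one_smul]
  simp_rw [hh, W_eq]
  rw [smul_sum]
  simp_rw [smul_mul_assoc, sum_mul, smul_sum]
  rw [sum_comm]

end

end Pool.Agent.W120.HI
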