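import Pool.Agent.W871.HI.Stm3

/-!
# Ordered cycle types: HI-REM and HI-REC
-/

set_option autoImplicit false

open Finset

namespace Pool.Agent.W120.HI

open Pool.Agent.W871.HI

noncomputable section

theorem mem_tup {k n : ℕ} {m : Fin k → ℕ} : m ∈ tup k n ↔ (∀ i, 1 ≤ m i) ∧ ∑ i, m i = n := by
  unfold tup
  rw [mem_filter, Fintype.mem_piFinset]
  constructor
  · rintro ⟨h1, h2⟩
    exact ⟨fun i => (mem_Icc.1 (h1 i)).1, h2⟩
  · rintro ⟨h1, h2⟩
    refine ⟨fun i => mem_Icc.2 ⟨h1 i, ?_⟩, h2⟩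
    rw [← h2]
    exact single_le_sum (fun _ _ => Nat.zero_le _) (mem_univ i)

theorem tup_empty {k n : ℕ} (h : n < k) : tup k n = ∅ := by
  rw [eq_empty_iff_forall_notMem]
  intro m hm
  rw [mem_tup] at hm
  have : ∑ i : Fin k, 1 ≤ ∑ i, m i := sum_le_sum fun i _ => hm.1 i
  rw [hm.2] at this
  simp at this
  omega

/-- inner sum -/
def tt (w : ℕ → ℚ) (k n : ℕ) (G : (Fin k → ℕ) → R) : R :=
  ∑ m ∈ tup k n, (∏ i, w (m i)) • G m

theorem T_eq (w : ℕ → ℚ) (n : ℕ) (g : (k : ℕ) → (Fin k → ℕ) → R) :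
    T w n g = ∑ k ∈ range (n + 1), ((k.factorial : ℚ)⁻¹) • tt w k n (g k) := by
  unfold T tt
  refine sum_congr rfl fun k _ => ?_
  rw [smul_sum]
  refine sum_congr rfl fun m _ => ?_
  rw [mul_smul]

theorem tt_zero_of_lt (w : ℕ → ℚ) {k n : ℕ} (h : n < k) (G : (Fin k → ℕ) → R) : tt w k n G = 0 := by
  unfold tt
  rw [tup_empty h, sum_empty]

theorem T_eq' (w : ℕ → ℚ) (n K : ℕ) (hK : n + 1 ≤ K) (g : (k : ℕ) → (Fin k → ℕ) → R) :
    T w n g = ∑ k ∈ range K, ((k.factorial : ℚ)⁻¹) • tt w k n (g k) := by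
  rw [T_eq]
  refine sum_subset (range_mono hK) ?_
  intro k _ hk
  rw [mem_range, not_lt] at hk
  rw [tt_zero_of_lt w (by omega), smul_zero]

/-- splitting off position `j` -/
theorem sum_tup (k n : ℕ) (j : Fin (k + 1)) (F : (Fin (k + 1) → ℕ) → R) :
    ∑ m ∈ tup (k + 1) n, F m = ∑ l ∈ Icc 1 n, ∑ m' ∈ tup k (n - l), F (j.insertNth l m') := by
  rw [sum_sigma']
  refine sum_nbij' (fun m => (⟨m j, j.removeNth m⟩ : Σ _ : ℕ, (Fin k → ℕ)))
    (fun p => j.insertNth p.1 p.2) ?_ ?_ ?_ ?_ ?_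
  · intro m hm
    rw [mem_tup] at hm
    have h1 := Fin.sum_univ_succAbove m j
    rw [hm.2] at h1
    rw [mem_sigma, mem_Icc, mem_tup]
    refine ⟨⟨hm.1 j, by show m j ≤ n; omega⟩, fun i => hm.1 _, ?_⟩
    show ∑ i, m (j.succAbove i) = n - m j
    omega
  · rintro ⟨l, m'⟩ hp
    rw [mem_sigma, mem_Icc, mem_tup] at hp
    obtain ⟨⟨h1, h2⟩, h3, h4⟩ := hp
    simp only at h1 h2 h3 h4
    rw [mem_tup]
    refine ⟨?_, ?_⟩
    · intro i
      refine Fin.succAboveCases j ?_ ?_ i
      · simpa using h1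
      · intro i; simpa using h3 i
    · rw [Fin.sum_univ_succAbove _ j]
      simp only [Fin.insertNth_apply_same, Fin.insertNth_apply_succAbove]
      omega
  · intro m _
    exact Fin.insertNth_self_removeNth j m
  · rintro ⟨l, m'⟩ _
    simp
  · intro m _
    rw [Fin.insertNth_self_removeNth j m]

theorem tt_rm (w : ℕ → ℚ) (k n a : ℕ) (ha : 1 ≤ a) (j : Fin (k + 1)) (G : (Fin k → ℕ) → R) :
    tt w (k + 1) n (fun m => if m j = a then G (j.removeNth m) else 0) =
      if a ≤ n then w a • tt w k (n - a) G else 0 := by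
  unfold tt
  rw [sum_tup k n j]
  have h1 : ∀ l ∈ Icc 1 n, ∑ m' ∈ tup k (n - l), (∏ i, w ((j.insertNth l m' : Fin (k + 1) → ℕ) i)) •
      (if (j.insertNth l m' : Fin (k + 1) → ℕ) j = a then
        G (j.removeNth (j.insertNth l m' : Fin (k + 1) → ℕ)) else 0) =
      if l = a then w a • ∑ m' ∈ tup k (n - a), (∏ i, w (m' i)) • G m' else 0 := by
    intro l _
    by_cases hl : l = a
    · subst hl
      rw [if_pos rfl, smul_sum]
      refine sum_congr rfl fun m' _ => ?_
      rw [Fin.prod_univ_succAbove _ j]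
      simp only [Fin.insertNth_apply_same, Fin.insertNth_apply_succAbove, if_true,
        Fin.removeNth_insertNth]
      rw [mul_smul]
    · rw [if_neg hl]
      refine sum_eq_zero fun m' _ => ?_
      simp [hl]
  rw [sum_congr rfl h1, sum_ite_eq']
  by_cases h2 : a ≤ n
  · rw [if_pos (mem_Icc.2 ⟨ha, h2⟩), if_pos h2]
  · rw [if_neg (fun h => h2 (mem_Icc.1 h).2), if_neg h2]

theorem rem : S_rem := by
  intro g a n ha
  rw [T_eq, sum_range_succ']
  have h0 : tt wm 0 n (rm a g 0) = 0 := by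
    unfold tt
    refine sum_eq_zero fun m _ => ?_
    simp [rm]
  rw [h0, smul_zero, add_zero]
  have h1 : ∀ k ∈ range n, (((k + 1).factorial : ℚ)⁻¹) • tt wm (k + 1) n (rm a g (k + 1)) =
      ((k.factorial : ℚ)⁻¹) • (if a ≤ n then wm a • tt wm k (n - a) (g k) else 0) := by
    intro k _
    have h2 : tt wm (k + 1) n (rm a g (k + 1)) =
        ∑ j : Fin (k + 1), tt wm (k + 1) n (fun m => if m j = a then g k (j.removeNth m) else 0) := by
      unfold tt
      rw [sum_comm]
      refine sum_congr rfl fun m _ => ?_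
      rw [← smul_sum]
      rfl
    rw [h2, sum_congr rfl (fun j _ => tt_rm wm k n a ha j (g k)), sum_const, card_univ,
      Fintype.card_fin, ← Nat.cast_smul_eq_nsmul ℚ, smul_smul]
    congr 1
    rw [Nat.factorial_succ]
    push_cast
    have : ((k : ℚ) + 1) ≠ 0 := by positivity
    have : (k.factorial : ℚ) ≠ 0 := by positivity
    field_simp
  rw [sum_congr rfl h1]
  by_cases h : a ≤ n
  · simp only [h, if_true]
    rw [T_eq' wm (n - a) n (by omega), smul_sum]
    refine sum_congr rfl fun k _ => ?_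
    rw [smul_comm]
  · simp only [h, if_false, smul_zero, sum_const_zero]

theorem rec : S_rec := by
  intro c g hg n
  set w : ℕ → ℚ := fun l => c * (l : ℚ)⁻¹ with hw
  rw [T_eq, mul_sum, sum_range_succ']
  have h0 : (n : R) * (((0 : ℕ).factorial : ℚ)⁻¹ • tt w 0 n (g 0)) = 0 := by
    rcases Nat.eq_zero_or_pos n with h | h
    · subst h; simp
    · unfold tt
      have : tup 0 n = ∅ := by
        rw [eq_empty_iff_forall_notMem]
        intro m hm
        have := (mem_tup.1 hm).2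
        simp at this
        omega
      rw [this]; simp
  rw [h0, add_zero]
  have h1 : ∀ k ∈ range n, (n : R) * ((((k + 1).factorial : ℚ)⁻¹) • tt w (k + 1) n (g (k + 1))) =
      c • ∑ l ∈ Icc 1 n, ((k.factorial : ℚ)⁻¹) • tt w k (n - l) (fun m => g (k + 1) (Fin.cons l m)) := by
    intro k _
    have h2 : (n : R) * tt w (k + 1) n (g (k + 1)) =
        ∑ j : Fin (k + 1), ∑ m ∈ tup (k + 1) n, ((m j : ℚ) * ∏ i, w (m i)) • g (k + 1) m := by
      unfold tt
      rw [sum_comm, mul_sum]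
      refine sum_congr rfl fun m hm => ?_
      rw [← sum_smul, ← sum_mul, mul_smul, ← Nat.cast_sum, (mem_tup.1 hm).2]
      rw [Nat.cast_smul_eq_nsmul, nsmul_eq_mul]
    have h3 : ∀ j : Fin (k + 1), ∑ m ∈ tup (k + 1) n, ((m j : ℚ) * ∏ i, w (m i)) • g (k + 1) m =
        c • ∑ l ∈ Icc 1 n, tt w k (n - l) (fun m => g (k + 1) (Fin.cons l m)) := by
      intro j
      rw [sum_tup k n j, smul_sum]
      refine sum_congr rfl fun l hl => ?_
      unfold tt
      rw [smul_sum]
      refine sum_congr rfl fun m' _ => ?_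
      rw [Fin.prod_univ_succAbove _ j]
      simp only [Fin.insertNth_apply_same, Fin.insertNth_apply_succAbove]
      have h4 : g (k + 1) (j.insertNth l m') = g (k + 1) (Fin.cons l m') := by
        have h5 := hg (k + 1) j.cycleRange.symm (j.insertNth l m')
        rw [← h5, Fin.insertNth_comp_cycleRange_symm]
      rw [h4, smul_smul]
      congr 1
      have hl0 : (l : ℚ) ≠ 0 := by
        have := (mem_Icc.1 hl).1
        positivity
      rw [hw]
      field_simp
    rw [mul_smul_comm, h2, sum_congr rfl (fun j _ => h3 j), sum_const, card_univ, Fintype.card_fin,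
      ← Nat.cast_smul_eq_nsmul ℚ, ← smul_sum, smul_smul, smul_smul, smul_smul]
    congr 1
    rw [Nat.factorial_succ]
    push_cast
    have : ((k : ℚ) + 1) ≠ 0 := by positivity
    have : (k.factorial : ℚ) ≠ 0 := by positivity
    field_simp
  rw [sum_congr rfl h1, ← smul_sum, sum_comm]
  congr 1
  refine sum_congr rfl fun l hl => ?_
  have := (mem_Icc.1 hl)
  rw [T_eq' w (n - l) n (by omega)]

end

end Pool.Agent.W120.HI
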